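import Pool.Agent.Q224.RD.Hard

/-!
# r-Dominating Set parameterized by the distance to split graphs
-/

set_option autoImplicit false

namespace Pool.Agent.Results.MP_918064_lc.DistanceToSplit

open Pool.Agent.H633R2

/-- The set `X` of an instance: the vertices at which the 0/1 vector of the instance is `1`
(missing entries are `0`). -/
def setX (x : List (List Bool) × List Bool × ℕ) : Finset (Fin x.1.length) :=
  Finset.univ.filter fun v => x.2.1.getD v false = true

/-- The parameter `|X|`. -/
def paramX (x : List (List Bool) × List Bool × ℕ) : ℕ := (setX x).card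

/-- A split graph: the vertex set is the union of two disjoint sets `K` and `I` such that `K` is a
clique and `I` is an independent set. -/
def IsSplit {V : Type} (G : SimpleGraph V) : Prop :=
  ∃ K I : Set V, K ∪ I = Set.univ ∧ K ∩ I = ∅ ∧ G.IsClique K ∧ G.IsIndepSet I

/-- `r`-dominating sets. -/
def RDominates {V : Type} (G : SimpleGraph V) (r : ℕ) (S : Finset V) : Prop :=
  ∀ v, ∃ s ∈ S, G.edist v s ≤ r

/-- `r`-Dominating Set parameterized by SVD. An instance `(M, B, l)` consists of the matrix `M` of
a graph `G`, the 0/1 vector `B` of a set `X` of vertices and a number `l`; it is a yes-instance iff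
`G - X` is a split graph and `G` has an `r`-dominating set of size at most `l`. -/
def RDomSVD (r : ℕ) (x : List (List Bool) × List Bool × ℕ) : Prop :=
  IsSplit ((graphOf x.1).induce {v | v ∉ setX x}) ∧
    ∃ S : Finset (Fin x.1.length), S.card ≤ x.2.2 ∧ RDominates (graphOf x.1) r S

theorem problem_eq (r : ℕ) : RDomSVD r = Pool.Agent.NPC.Q224RD.RDomSVD r := by
  funext x
  apply propext
  refine and_congr Iff.rfl (exists_congr fun S => and_congr Iff.rfl (forall_congr' fun v =>
    exists_congr fun s => and_congr Iff.rfl ?_))
  exact (Q224.RD.near_iff _ _ _ _).symm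

/-- For `r = 2` the problem is W[2]-complete, and for every `r ≥ 3` it is fixed-parameter
tractable. -/
theorem result :
    InW2 paramX (RDomSVD 2) ∧ W2Hard paramX (RDomSVD 2) ∧
      ∀ r : ℕ, 3 ≤ r → IsFpt paramX (RDomSVD r) := by
  have e : paramX = Pool.Agent.NPC.Q224RD.kap := rfl
  simp only [problem_eq, e]
  exact ⟨Pool.Agent.NPC.Q224RD.inW2, Pool.Agent.NPC.Q224RD.w2Hard,
    fun r hr => Pool.Agent.NPC.Q224RD.isFpt hr⟩

end Pool.Agent.Results.MP_918064_lc.DistanceToSplit
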